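import Mathlib

set_option autoImplicit false

namespace Pool.Agent.Results.MP_0548d2_gt.Crown

open CategoryTheory

section defs

variable {k : Type} [Field k]

/-- multi-flags: sets of subspaces containing `0`, the whole space, closed under intersection -/
def IsMultiFlag {V : Type} [AddCommGroup V] [Module k V] (S : Set (Submodule k V)) : Prop :=
  ⊥ ∈ S ∧ ⊤ ∈ S ∧ ∀ a ∈ S, ∀ b ∈ S, a ⊓ b ∈ S

/-- the multi-flag generated by a set of subspaces -/
def gen {V : Type} [AddCommGroup V] [Module k V] (T : Set (Submodule k V)) :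
    Set (Submodule k V) :=
  ⋂₀ {S | IsMultiFlag S ∧ T ⊆ S}

variable {C : Type} [PartialOrder C] (M : C ⥤ ModuleCat.{0} k)

/-- the linear map `M(x) → M(y)` for `x ≤ y` -/
def phi {x y : C} (h : x ≤ y) : M.obj x →ₗ[k] M.obj y := (M.map (homOfLE h)).hom

/-- `F_0(M)` -/
def flagZero (x : C) : Set (Submodule k (M.obj x)) :=
  gen ({W | ∃ (y : C) (h : x ≤ y), W = LinearMap.ker (phi M h)} ∪
    {W | ∃ (z : C) (h : z ≤ x), W = LinearMap.range (phi M h)})

/-- the recursion step -/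
def step (G : (x : C) → Set (Submodule k (M.obj x))) (x : C) : Set (Submodule k (M.obj x)) :=
  gen ({W | ∃ (y : C) (h : x ≤ y), ∃ U ∈ G y, W = U.comap (phi M h)} ∪
    {W | ∃ (z : C) (h : z ≤ x), ∃ U ∈ G z, W = U.map (phi M h)})

/-- `F_n(M)` -/
def flag (n : ℕ) : (x : C) → Set (Submodule k (M.obj x)) := (step M)^[n] (flagZero M)

/-- `F^F_n(M)` -/
def relFlag (F : (x : C) → Set (Submodule k (M.obj x))) (n : ℕ) :
    (x : C) → Set (Submodule k (M.obj x)) :=
  (step M)^[n] (fun x => gen (flagZero M x ∪ F x))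

/-- stable local structure -/
def Stable : Prop := ∀ x : C, ∃ N : ℕ, ∀ n, N ≤ n → flag M n x = flag M (n + 1) x

/-- strongly stable local structure -/
def StronglyStable : Prop :=
  ∀ F : (x : C) → Set (Submodule k (M.obj x)), (∀ x, IsMultiFlag (F x) ∧ (F x).Finite) →
    ∃ N : ℕ, ∀ x : C, (⋃ n, relFlag M F n x) = relFlag M F N x

end defs

/-- connectedness of a poset -/
def Conn (C : Type) [PartialOrder C] : Prop :=
  Nonempty C ∧ ∀ x y : C, Relation.ReflTransGen (fun a b => a ≤ b ∨ b ≤ a) x y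

section general

variable {k : Type} [Field k] {V : Type} [AddCommGroup V] [Module k V]

lemma subset_gen (T : Set (Submodule k V)) : T ⊆ gen T := fun _ h _ hS => hS.2 h

lemma gen_subset {T S : Set (Submodule k V)} (hS : IsMultiFlag S) (h : T ⊆ S) : gen T ⊆ S :=
  fun _ hW => hW S ⟨hS, h⟩

lemma bot_mem_gen (T : Set (Submodule k V)) : ⊥ ∈ gen T := fun _ hS => hS.1.1
lemma top_mem_gen (T : Set (Submodule k V)) : ⊤ ∈ gen T := fun _ hS => hS.1.2.1

end general

/-- the crown: `0, 1 < 2, 3` -/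
def Cr : Type := Fin 4

instance : DecidableEq Cr := inferInstanceAs (DecidableEq (Fin 4))
instance : Fintype Cr := inferInstanceAs (Fintype (Fin 4))

instance : PartialOrder Cr where
  le x y := x = y ∨ ((show Fin 4 from x).val < 2 ∧ 2 ≤ (show Fin 4 from y).val)
  le_refl _ := Or.inl rfl
  le_trans x y z h1 h2 := by
    rcases h1 with rfl | h1
    · exact h2
    · rcases h2 with rfl | h2
      · exact Or.inr h1
      · omega
  le_antisymm x y h1 h2 := by
    rcases h1 with rfl | h1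
    · rfl
    · rcases h2 with rfl | h2
      · rfl
      · omega

def c0 : Cr := (0 : Fin 4)
def c1 : Cr := (1 : Fin 4)
def c2 : Cr := (2 : Fin 4)
def c3 : Cr := (3 : Fin 4)

lemma l02 : c0 ≤ c2 := Or.inr (by decide)
lemma l03 : c0 ≤ c3 := Or.inr (by decide)
lemma l12 : c1 ≤ c2 := Or.inr (by decide)
lemma l13 : c1 ≤ c3 := Or.inr (by decide)

/-- the shear by `t` -/
def sh (t : ℤ) : (ℚ × ℚ) →ₗ[ℚ] (ℚ × ℚ) where
  toFun v := (v.1 + t * v.2, v.2)
  map_add' v w := by ext <;> simp; ring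
  map_smul' c v := by ext <;> simp; ring

def wt (x y : Cr) : ℤ := if x = c1 ∧ y = c3 then 1 else 0

lemma sh_zero : sh 0 = LinearMap.id := by
  apply LinearMap.ext; intro v; simp [sh]

lemma sh_comp (s t : ℤ) : (sh s).comp (sh t) = sh (t + s) := by
  apply LinearMap.ext; intro v; ext <;> simp [sh]; ring

lemma wt_self (x : Cr) : wt x x = 0 := by
  unfold wt; rw [if_neg]; rintro ⟨rfl, h⟩; exact absurd h (by decide)

lemma wt_add {x y z : Cr} (h1 : x ≤ y) (h2 : y ≤ z) : wt x z = wt x y + wt y z := by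
  rcases h1 with rfl | h1
  · rw [wt_self, zero_add]
  · rcases h2 with rfl | h2
    · rw [wt_self, add_zero]
    · omega

lemma wt_abs (x y : Cr) : |wt x y| ≤ 1 := by
  unfold wt; split_ifs <;> simp

noncomputable def MM : Cr ⥤ ModuleCat.{0} ℚ where
  obj _ := ModuleCat.of ℚ (ℚ × ℚ)
  map {x y} _ := ModuleCat.ofHom (sh (wt x y))
  map_id x := by rw [wt_self, sh_zero]; rfl
  map_comp {x y z} f g := by
    rw [wt_add f.le g.le, ← sh_comp]; rfl

lemma phi_MM {x y : Cr} (h : x ≤ y) : phi MM h = sh (wt x y) := rfl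

/-- the line through `(m,1)` -/
def L (m : ℤ) : Submodule ℚ (ℚ × ℚ) := LinearMap.ker (LinearMap.fst ℚ ℚ ℚ - (m:ℚ) • LinearMap.snd ℚ ℚ ℚ)

lemma mem_L {m : ℤ} {v : ℚ × ℚ} : v ∈ L m ↔ v.1 = m * v.2 := by
  simp [L, sub_eq_zero]

lemma comap_L (t m : ℤ) : (L m).comap (sh t) = L (m - t) := by
  ext v; simp only [Submodule.mem_comap, mem_L, sh, LinearMap.coe_mk, AddHom.coe_mk]
  push_cast; constructor <;> intro h <;> linarith

lemma map_eq_comap (t : ℤ) (U : Submodule ℚ (ℚ × ℚ)) : U.map (sh t) = U.comap (sh (-t)) := by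
  ext v
  constructor
  · rintro ⟨w, hw, rfl⟩
    have : sh (-t) (sh t w) = w := by ext <;> simp [sh]
    rw [Submodule.mem_comap, this]; exact hw
  · intro h
    exact ⟨_, h, by ext <;> simp [sh]⟩

lemma comap_bot' (t : ℤ) : (⊥ : Submodule ℚ (ℚ × ℚ)).comap (sh t) = ⊥ := by
  ext v
  simp only [Submodule.mem_comap, Submodule.mem_bot, sh, LinearMap.coe_mk, AddHom.coe_mk,
    Prod.ext_iff, Prod.fst_zero, Prod.snd_zero]
  constructor
  · rintro ⟨h1, h2⟩; rw [h2] at h1; exact ⟨by simpa using h1, h2⟩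
  · rintro ⟨h1, h2⟩; simp [h1, h2]

/-- the bounding multi-flags; `A` is the set of allowed slopes -/
def SS (A : Set ℤ) : Set (Submodule ℚ (ℚ × ℚ)) := {W | W = ⊥ ∨ W = ⊤ ∨ ∃ m ∈ A, W = L m}

lemma SS_flag (A : Set ℤ) : IsMultiFlag (SS A) := by
  refine ⟨Or.inl rfl, Or.inr (Or.inl rfl), ?_⟩
  rintro a (rfl | rfl | ⟨m, hm, rfl⟩) b hb
  · exact Or.inl (by simp)
  · simpa using hb
  · rcases hb with rfl | rfl | ⟨n, hn, rfl⟩
    · exact Or.inl (by simp)
    · exact Or.inr (Or.inr ⟨m, hm, by simp⟩)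
    · by_cases h : m = n
      · exact Or.inr (Or.inr ⟨m, hm, by simp [h]⟩)
      · left
        rw [eq_bot_iff]
        rintro v ⟨h1, h2⟩
        have h1 : v.1 = m * v.2 := mem_L.mp h1
        have h2 : v.1 = n * v.2 := mem_L.mp h2
        have h3 : ((m : ℚ) - n) * v.2 = 0 := by linarith
        have h4 : ((m : ℚ) - n) ≠ 0 := sub_ne_zero.mpr (by exact_mod_cast h)
        have h5 : v.2 = 0 := (mul_eq_zero.mp h3).resolve_left h4
        rw [Submodule.mem_bot]
        ext
        · simp [h1, h5]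
        · simp [h5]

lemma SS_comap {A B : Set ℤ} {t : ℤ} (h : ∀ m ∈ A, m - t ∈ B) {U : Submodule ℚ (ℚ × ℚ)}
    (hU : U ∈ SS A) : U.comap (sh t) ∈ SS B := by
  rcases hU with rfl | rfl | ⟨m, hm, rfl⟩
  · exact Or.inl (comap_bot' t)
  · exact Or.inr (Or.inl (Submodule.comap_top _))
  · exact Or.inr (Or.inr ⟨m - t, h m hm, comap_L t m⟩)

lemma step_sub {A B : Set ℤ} (h : ∀ m ∈ A, ∀ t : ℤ, |t| ≤ 1 → m - t ∈ B)
    {G : (x : Cr) → Set (Submodule ℚ (MM.obj x))} (hG : ∀ x, G x ⊆ SS A) (x : Cr) :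
    step MM G x ⊆ SS B := by
  refine gen_subset (SS_flag B) ?_
  rintro W (⟨y, hy, U, hU, rfl⟩ | ⟨y, hy, U, hU, rfl⟩)
  · exact SS_comap (fun m hm => h m hm _ (wt_abs x y)) (hG y hU)
  · have := map_eq_comap (wt y x) U
    rw [phi_MM]
    erw [this]
    exact SS_comap (fun m hm => h m hm _ (by rw [abs_neg]; exact wt_abs y x)) (hG y hU)

lemma zero_sub' (A : Set ℤ) (x : Cr) : flagZero MM x ⊆ SS A := by
  refine gen_subset (SS_flag A) ?_
  rintro W (⟨y, hy, rfl⟩ | ⟨y, hy, rfl⟩)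
  · exact Or.inl (comap_bot' _)
  · right; left
    rw [LinearMap.range_eq_map, phi_MM]
    exact (map_eq_comap _ ⊤).trans (Submodule.comap_top _)

lemma flag_eq (n : ℕ) (x : Cr) : flag MM n x = SS ∅ := by
  apply Set.Subset.antisymm
  · induction n generalizing x with
    | zero => exact zero_sub' _ x
    | succ n ih =>
      unfold flag
      rw [Function.iterate_succ_apply']
      exact step_sub (A := ∅) (by simp) ih x
  · have hb : ⊥ ∈ flag MM n x ∧ ⊤ ∈ flag MM n x := by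
      cases n with
      | zero => exact ⟨bot_mem_gen _, top_mem_gen _⟩
      | succ n =>
        unfold flag
        rw [Function.iterate_succ_apply']
        exact ⟨bot_mem_gen _, top_mem_gen _⟩
    rintro W (rfl | rfl | ⟨m, hm, -⟩)
    · exact hb.1
    · exact hb.2
    · exact hm.elim

def FF (x : Cr) : Set (Submodule ℚ (MM.obj x)) := SS {0}

lemma rel_sub (n : ℕ) (x : Cr) : relFlag MM FF n x ⊆ SS {m | |m| ≤ n} := by
  induction n generalizing x with
  | zero =>
    refine gen_subset (SS_flag _) (Set.union_subset (zero_sub' _ x) ?_)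
    rintro W (rfl | rfl | ⟨m, hm, rfl⟩)
    · exact Or.inl rfl
    · exact Or.inr (Or.inl rfl)
    · exact Or.inr (Or.inr ⟨m, by simpa using hm, rfl⟩)
  | succ n ih =>
    unfold relFlag
    rw [Function.iterate_succ_apply']
    refine step_sub (fun m hm t ht => ?_) ih x
    simp only [Set.mem_ofPred_eq, abs_le] at *
    push_cast
    omega

lemma up {n : ℕ} {x y : Cr} (h : x ≤ y) {m : ℤ} (hm : L m ∈ relFlag MM FF n x) :
    L (m + wt x y) ∈ relFlag MM FF (n + 1) y := by
  unfold relFlag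
  rw [Function.iterate_succ_apply']
  refine subset_gen _ (Or.inr ⟨x, h, L m, hm, ?_⟩)
  rw [phi_MM]
  exact ((map_eq_comap _ _).trans ((comap_L _ _).trans (by rw [sub_neg_eq_add]))).symm

lemma down {n : ℕ} {x y : Cr} (h : x ≤ y) {m : ℤ} (hm : L m ∈ relFlag MM FF n y) :
    L (m - wt x y) ∈ relFlag MM FF (n + 1) x := by
  unfold relFlag
  rw [Function.iterate_succ_apply']
  exact subset_gen _ (Or.inl ⟨y, h, L m, hm, (comap_L _ _).symm⟩)

lemma reach (j : ℕ) : ∃ n, L j ∈ relFlag MM FF n c0 := by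
  induction j with
  | zero => exact ⟨0, subset_gen _ (Or.inr (Or.inr (Or.inr ⟨0, rfl, rfl⟩)))⟩
  | succ j ih =>
    obtain ⟨n, hn⟩ := ih
    have := down l03 (up l13 (down l12 (up l02 hn)))
    have e : (j : ℤ) + wt c0 c2 - wt c1 c2 + wt c1 c3 - wt c0 c3 = ((j + 1 : ℕ) : ℤ) := by
      have h1 : wt c0 c2 = 0 := by decide
      have h2 : wt c1 c2 = 0 := by decide
      have h3 : wt c1 c3 = 1 := by decide
      have h4 : wt c0 c3 = 0 := by decide
      rw [h1, h2, h3, h4]; push_cast; ring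
    rw [e] at this
    exact ⟨_, this⟩

/-- A module over a finite connected poset whose local structure is stable but not strongly
stable. -/
theorem result :
    ∃ (k : Type) (_ : Field k) (C : Type) (_ : PartialOrder C) (M : C ⥤ ModuleCat.{0} k),
      Finite C ∧ Conn C ∧ (∀ x, Module.Finite k (M.obj x)) ∧ Stable M ∧ ¬ StronglyStable M := by
  refine ⟨ℚ, inferInstance, Cr, inferInstance, MM, inferInstance, ⟨⟨c0⟩, ?_⟩,
    fun _ => inferInstanceAs (Module.Finite ℚ (ℚ × ℚ)),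
    fun x => ⟨0, fun n _ => by rw [flag_eq, flag_eq]⟩, fun h => ?_⟩
  · have key : ∀ x : Cr, x = c0 ∨ x = c1 ∨ x = c2 ∨ x = c3 := by decide
    have a : ∀ x : Cr, Relation.ReflTransGen (fun a b => a ≤ b ∨ b ≤ a) x c2 ∧
        Relation.ReflTransGen (fun a b => a ≤ b ∨ b ≤ a) c2 x := by
      intro x
      rcases key x with rfl | rfl | rfl | rfl
      · exact ⟨.single (Or.inl l02), .single (Or.inr l02)⟩
      · exact ⟨.single (Or.inl l12), .single (Or.inr l12)⟩
      · exact ⟨.refl, .refl⟩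
      · exact ⟨.tail (.single (Or.inr l03)) (Or.inl l02), .tail (.single (Or.inr l02)) (Or.inl l03)⟩
    exact fun x y => (a x).1.trans (a y).2
  · have hfin : (SS {0}).Finite := by
      refine (Set.toFinite ({⊥, ⊤, L 0} : Set (Submodule ℚ (ℚ × ℚ)))).subset ?_
      rintro W (rfl | rfl | ⟨m, hm, rfl⟩)
      · simp
      · simp
      · rw [Set.mem_singleton_iff.mp hm]; simp
    obtain ⟨N, hN⟩ := h FF fun x => ⟨SS_flag _, hfin⟩
    · obtain ⟨n, hn⟩ := reach (N + 1)
      have h1 : L ((N + 1 : ℕ) : ℤ) ∈ relFlag MM FF N c0 := by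
        rw [← hN]; exact Set.mem_iUnion.mpr ⟨n, hn⟩
      rcases rel_sub N c0 h1 with h2 | h2 | ⟨m, hm, h2⟩
      · have : ((((N + 1 : ℕ) : ℤ) : ℚ), (1 : ℚ)) ∈ L ((N + 1 : ℕ) : ℤ) := mem_L.mpr (by simp)
        rw [h2, Submodule.mem_bot] at this
        simp at this
      · have : ((1 : ℚ), (0 : ℚ)) ∈ L ((N + 1 : ℕ) : ℤ) := by rw [h2]; trivial
        simp [mem_L] at this
      · have : ((((N + 1 : ℕ) : ℤ) : ℚ), (1 : ℚ)) ∈ L ((N + 1 : ℕ) : ℤ) := mem_L.mpr (by simp)
        rw [h2, mem_L, mul_one] at this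
        have h3 : ((N + 1 : ℕ) : ℤ) = m := Int.cast_injective (α := ℚ) this
        have h4 : |m| ≤ N := hm
        rw [← h3, abs_le] at h4
        push_cast at h4
        omega

end Pool.Agent.Results.MP_0548d2_gt.Crown
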